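import Mathlib

/-! Right multiplication operators in an anticommutative 3-Engel algebra (MP_1664c7_al).
Operators act on the right: the word `X * Y` means first `X`, then `Y`. -/

set_option autoImplicit false

namespace Pool.Agent.H10.Eng

open MulOpposite

variable {A : Type*} [NonUnitalNonAssocRing A]

/-- The ring of additive operators, acting on the right. -/
abbrev Op (A : Type*) [NonUnitalNonAssocRing A] := (AddMonoid.End A)ᵐᵒᵖ

/-- Right multiplication by `y`. -/
def r (y : A) : Op A := op (AddMonoidHom.mulRight y)

/-- The action of an operator on an element. -/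
def act (u : A) (w : Op A) : A := (unop w) u

theorem act_mul (u : A) (v w : Op A) : act u (v * w) = act (act u v) w := rfl
theorem act_add (u : A) (v w : Op A) : act u (v + w) = act u v + act u w := rfl
theorem act_zero (u : A) : act u (0 : Op A) = 0 := rfl
theorem act_neg (u : A) (v : Op A) : act u (-v) = - act u v := rfl
theorem act_sub (u : A) (v w : Op A) : act u (v - w) = act u v - act u w := by
  rw [sub_eq_add_neg, act_add, act_neg, sub_eq_add_neg]
theorem act_r (u y : A) : act u (r y) = u * y := rfl
theorem add_act (u v : A) (w : Op A) : act (u + v) w = act u w + act v w := map_add (unop w) u v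
theorem neg_act (u : A) (w : Op A) : act (-u) w = - act u w := map_neg (unop w) u
theorem sub_act (u v : A) (w : Op A) : act (u - v) w = act u w - act v w := map_sub (unop w) u v
theorem zero_act (w : Op A) : act (0 : A) w = 0 := map_zero (unop w)

theorem op_ext {v w : Op A} (h : ∀ u : A, act u v = act u w) : v = w := by
  apply unop_injective
  ext u
  exact h u

theorem r_add (x y : A) : r (x + y) = r x + r y := by
  apply op_ext; intro u; rw [act_add, act_r, act_r, act_r, mul_add]
theorem r_neg (x : A) : r (-x) = - r x := by
  apply op_ext; intro u; rw [act_neg, act_r, act_r, mul_neg]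
theorem r_zero : r (0 : A) = 0 := by
  apply op_ext; intro u; rw [act_zero, act_r, mul_zero]
theorem r_sub (x y : A) : r (x - y) = r x - r y := by
  rw [sub_eq_add_neg, r_add, r_neg, sub_eq_add_neg]

/-- Anticommutative 3-Engel ring without 2-torsion. -/
structure IsEng (A : Type*) [NonUnitalNonAssocRing A] : Prop where
  sq : ∀ x : A, x * x = 0
  eng : ∀ x y : A, ((x * y) * y) * y = 0
  h2 : ∀ a : A, (2 : ℕ) • a = 0 → a = 0

namespace IsEng

variable (H : IsEng A)
include H

theorem anti (x y : A) : x * y = - (y * x) := by
  have h := H.sq (x + y)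
  rw [add_mul, mul_add, mul_add, H.sq x, H.sq y, zero_add, add_zero] at h
  exact eq_neg_of_add_eq_zero_left h

theorem two' {a : A} (h : a + a = 0) : a = 0 := H.h2 a (by rw [two_nsmul]; exact h)

theorem op_two {w : Op A} (h : w + w = 0) : w = 0 := by
  apply op_ext; intro u
  have := congrArg (act u) h
  rw [act_add, act_zero] at this
  rw [act_zero]
  exact H.two' this

/-- the linearised Engel identity, elementwise -/
theorem lin (x y z t : A) :
    ((x * y) * z) * t + ((x * y) * t) * z + ((x * z) * y) * t + ((x * z) * t) * y
      + ((x * t) * y) * z + ((x * t) * z) * y = 0 := by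
  have e1 := H.eng x (y + z + t)
  have e2 := H.eng x (y + z)
  have e3 := H.eng x (y + t)
  have e4 := H.eng x (z + t)
  have e5 := H.eng x y
  have e6 := H.eng x z
  have e7 := H.eng x t
  simp only [mul_add, add_mul] at e1 e2 e3 e4
  have key : ((x * y) * z) * t + ((x * y) * t) * z + ((x * z) * y) * t + ((x * z) * t) * y
      + ((x * t) * y) * z + ((x * t) * z) * y =
      (((x * y) * y) * y + 0) + (((x * z) * z) * z + 0) + (((x * t) * t) * t + 0)
      + (((x * y) * z) * t + ((x * y) * t) * z + ((x * z) * y) * t + ((x * z) * t) * y
      + ((x * t) * y) * z + ((x * t) * z) * y) := by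
    rw [e5, e6, e7]; abel
  clear key
  have := sub_eq_zero.mpr e1
  calc _ = (x * y * y * y + x * z * y * y + x * t * y * y + (x * y * z * y + x * z * z * y + x * t * z * y) +
      (x * y * t * y + x * z * t * y + x * t * t * y) + (x * y * y * z + x * z * y * z + x * t * y * z +
      (x * y * z * z + x * z * z * z + x * t * z * z) + (x * y * t * z + x * z * t * z + x * t * t * z)) +
      (x * y * y * t + x * z * y * t + x * t * y * t + (x * y * z * t + x * z * z * t + x * t * z * t) +
      (x * y * t * t + x * z * t * t + x * t * t * t)))
      - (x * y * y * y + x * z * y * y + (x * y * z * y + x * z * z * y) + (x * y * y * z + x * z * y * z + (x * y * z * z + x * z * z * z)))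
      - (x * y * y * y + x * t * y * y + (x * y * t * y + x * t * t * y) + (x * y * y * t + x * t * y * t + (x * y * t * t + x * t * t * t)))
      - (x * z * z * z + x * t * z * z + (x * z * t * z + x * t * t * z) + (x * z * z * t + x * t * z * t + (x * z * t * t + x * t * t * t)))
      + x * y * y * y + x * z * z * z + x * t * t * t := by abel
    _ = 0 := by
      rw [e1, e2, e3, e4, e5, e6, e7]; simp

theorem sym (y z t : A) :
    r y * r z * r t + r y * r t * r z + r z * r y * r t + r z * r t * r y
      + r t * r y * r z + r t * r z * r y = 0 := by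
  apply op_ext; intro u
  simp only [act_add, act_mul, act_r, act_zero]
  exact H.lin u y z t

/-- the second operator form -/
theorem op2 (x y z : A) :
    r ((x * y) * z) + r ((x * z) * y) + r (x * y) * r z + r (x * z) * r y
      + r x * r y * r z + r x * r z * r y = 0 := by
  apply op_ext; intro u
  simp only [act_add, act_mul, act_r, act_zero]
  have h := H.lin x y z u
  have a1 : ((x * y) * z) * u = - (u * ((x * y) * z)) := H.anti _ _
  have a2 : ((x * z) * y) * u = - (u * ((x * z) * y)) := H.anti _ _
  have a3 : ((x * y) * u) * z = - ((u * (x * y)) * z) := by rw [H.anti (x * y) u, neg_mul]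
  have a4 : ((x * z) * u) * y = - ((u * (x * z)) * y) := by rw [H.anti (x * z) u, neg_mul]
  have a5 : ((x * u) * y) * z = - (((u * x) * y) * z) := by rw [H.anti x u, neg_mul, neg_mul]
  have a6 : ((x * u) * z) * y = - (((u * x) * z) * y) := by rw [H.anti x u, neg_mul, neg_mul]
  rw [a1, a2, a3, a4, a5, a6] at h
  have h' := congrArg Neg.neg h
  rw [neg_zero] at h'
  rw [← h']
  abel

end IsEng

end Pool.Agent.H10.Eng
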