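import Mathlib
import Pool.Agent.H10.Eng.Op

/-! Sandwiches in anticommutative 3-Engel algebras: basic identities (MP_1664c7_al). -/

set_option autoImplicit false

namespace Pool.Agent.H10.Eng

open MulOpposite

variable {A : Type*} [NonUnitalNonAssocRing A]

/-- `c` is a sandwich: `(u c) c = 0` for all `u`. -/
structure IsSand (c : A) : Prop extends IsEng A where
  hc : ∀ u : A, (u * c) * c = 0

namespace IsSand

variable {c : A} (S : IsSand c)
include S

theorem cc : r c * r c = 0 := by
  apply op_ext; intro u
  rw [act_mul, act_r, act_r, act_zero, S.hc]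

theorem cxc (x : A) : r c * r x * r c = 0 := by
  apply S.toIsEng.op_two
  have h := S.toIsEng.sym c c x
  have hc := S.cc
  linear_combination (norm := noncomm_ring) h - 2 * hc * r x - 2 * r x * hc

theorem pc (x : A) : r (x * c) * r c = 0 := by
  apply S.toIsEng.op_two
  have h := S.toIsEng.op2 x c c
  have hc := S.cc
  rw [S.hc, r_zero] at h
  linear_combination (norm := noncomm_ring) h - 2 * r x * hc

theorem F (x z : A) : r ((x * c) * z) = - r ((x * z) * c) - r (x * c) * r z
    - r (x * z) * r c - r x * r c * r z - r x * r z * r c := by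
  have h := S.toIsEng.op2 x c z
  linear_combination (norm := noncomm_ring) h

theorem FC (x z : A) : r ((x * c) * z) * r c = - r (x * c) * r z * r c := by
  rw [S.F]
  have h1 := S.pc (x * z)
  have h2 := S.cc
  have h3 := S.cxc z
  linear_combination (norm := noncomm_ring) - h1 - r (x * z) * h2 - r x * h3 - r x * r z * h2

/-- reversal -/
theorem rev (w z q : A) : act w (r (z * c) * r q * r c) = act z (r c * r q * r w * r c) := by
  have h := congrArg (act w) (S.FC z q)
  rw [neg_mul, neg_mul, act_neg] at h
  have e : act w (r ((z * c) * q) * r c) = - act z (r c * r q * r w * r c) := by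
    simp only [act_mul, act_r]
    rw [S.toIsEng.anti w, neg_mul]
  rw [e] at h
  exact (neg_injective h).symm

theorem csym (x y : A) : r c * r x * r y * r c + r c * r y * r x * r c = 0 := by
  have h := S.toIsEng.sym c x y
  have h1 := S.cc
  have h2 := S.cxc x
  have h3 := S.cxc y
  have h4 : r c * (r c * r x * r y + r c * r y * r x + r x * r c * r y + r x * r y * r c
      + r y * r c * r x + r y * r x * r c) = 0 := by rw [h, mul_zero]
  linear_combination (norm := noncomm_ring) h4 - h1 * r x * r y - h1 * r y * r x
    - h2 * r y - h3 * r x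

/-- (T1) -/
theorem t1 (x y : A) : r c * r x * r (y * c) + r c * r (y * c) * r x + r x * r c * r (y * c)
    + r (y * c) * r x * r c = 0 := by
  have h := S.toIsEng.sym c x (y * c)
  have h1 := S.pc y
  linear_combination (norm := noncomm_ring) h - r x * h1 - h1 * r x

theorem e1 (x y : A) : r c * r (y * c) * r x * r c = 0 := by
  have h := S.t1 x y
  have h1 := S.cc
  have h2 := S.cxc x
  linear_combination (norm := noncomm_ring) r c * h - h1 * r x * r (y * c) - h1 * r (y * c) * r x
    - h2 * r (y * c)

theorem e1s (x a b : A) : r c * r (x * c) * r a * r b * r c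
    + r c * r (x * c) * r b * r a * r c = 0 := by
  have h := S.toIsEng.sym c a b
  have h1 := S.pc x
  have h2 := S.e1 a x
  have h3 := S.e1 b x
  linear_combination (norm := noncomm_ring) r c * r (x * c) * h - r c * h1 * r a * r b
    - r c * h1 * r b * r a - h2 * r b - h3 * r a

/-- `K(y,x) = (y c)(x c)` is antisymmetric -/
theorem kanti (y x : A) : act y (r c * r (x * c)) = - act x (r c * r (y * c)) := by
  simp only [act_mul, act_r]
  exact S.toIsEng.anti _ _

theorem g2aux1 (z a x b : A) : act z (r c * r a * r (x * c) * r b * r c)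
    = - act x (r c * r b * r (z * c) * r a * r c) := by
  have h := S.rev (act z (r c * r a)) x b
  have e : act z (r c * r a * r (x * c) * r b * r c)
      = act (act z (r c * r a)) (r (x * c) * r b * r c) := by
    simp only [act_mul]
  rw [e, h]
  have e2 : r (act z (r c * r a)) = r ((z * c) * a) := rfl
  rw [e2, mul_assoc (r c * r b), S.FC]
  rw [← act_neg]
  congr 1
  noncomm_ring

theorem g2aux2 (z a x b : A) : act z (r c * r a * r (x * c) * r b * r c)
    = - act z (r c * r (x * c) * r a * r b * r c) := by
  rw [← act_neg]
  congr 1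
  have h := S.t1 a x
  have h1 := S.e1 b x
  have h2 := S.cxc b
  linear_combination (norm := noncomm_ring) h * r b * r c - r a * h1 - r (x * c) * r a * h2

theorem e2 (x a b : A) : r c * r (x * c) * r a * r b * r c = 0 := by
  apply op_ext; intro z
  rw [act_zero]
  apply S.toIsEng.two'
  have k1 := S.g2aux1 z a x b
  have k2 := S.g2aux2 z a x b
  have k3 := S.g2aux2 x b z a
  -- f(z,a,x,b) = -E(z;x,a,b), f(x,b,z,a) = -E(x;z,b,a)
  have k4 : act x (r c * r (z * c) * r b * r a * r c) = act z (r c * r (x * c) * r a * r b * r c) := by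
    have h := congrArg (act x) (S.e1s z b a)
    rw [act_add, act_zero] at h
    have e : act x (r c * r (z * c) * r a * r b * r c)
        = act (act x (r c * r (z * c))) (r a * r b * r c) := by simp only [act_mul]
    have e' : act z (r c * r (x * c) * r a * r b * r c)
        = act (act z (r c * r (x * c))) (r a * r b * r c) := by simp only [act_mul]
    rw [e, S.kanti x z, neg_act, ← e'] at h
    exact add_neg_eq_zero.mp h
  rw [k2, k3, k4, neg_neg] at k1
  -- k1 : -f = f
  nth_rewrite 2 [← k1]
  exact add_neg_cancel _

theorem g2 (x a b : A) : r c * r a * r (x * c) * r b * r c = 0 := by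
  apply op_ext; intro z
  rw [S.g2aux2, S.e2, act_zero, neg_zero]

theorem dform (u x : A) : r ((u * c) * (x * c)) = - r (u * c) * r (x * c)
    - r (x * c) * r u * r c - r u * r c * r (x * c) := by
  have h := S.F u (x * c)
  have h1 : (u * (x * c)) * c = 0 := by
    have := congrArg (act u) (S.pc x)
    rwa [act_mul, act_r, act_r, act_zero] at this
  have h2 : r (u * (x * c)) * r c = r (x * c) * r u * r c := by
    rw [S.toIsEng.anti u, r_neg, neg_mul, S.FC]
    noncomm_ring
  have h3 := S.pc x
  rw [h1, r_zero] at h
  linear_combination (norm := noncomm_ring) h - h2 - r u * h3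

theorem dvc (u x v : A) : r ((u * c) * (x * c)) * r v * r c = 0 := by
  apply op_ext; intro w
  have h := congrArg (act u) (S.e2 x w v)
  simp only [act_mul, act_r, act_zero] at h ⊢
  rw [S.toIsEng.anti w, neg_mul, neg_mul, h, neg_zero]

theorem dc (u x : A) : r ((u * c) * (x * c)) * r c = 0 := by
  apply op_ext; intro w
  have h := congrArg (act u) (S.e1 w x)
  simp only [act_mul, act_r, act_zero] at h ⊢
  rw [S.toIsEng.anti w, neg_mul, h, neg_zero]

theorem ppc (u x z : A) : r (u * c) * r (x * c) * r z * r c = 0 := by
  have h := S.dvc u x z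
  rw [S.dform] at h
  have h1 := S.cxc z
  have h2 := S.e1 z x
  linear_combination (norm := noncomm_ring) - h - r (x * c) * r u * h1 - r u * h2

theorem pxe (z x y : A) : r (z * c) * r x * r c * r (y * c) = 0 := by
  have h := S.t1 x y
  have h1 := S.ppc z y x
  have h2 := S.pc z
  linear_combination (norm := noncomm_ring) r (z * c) * h - h1 - h2 * r x * r (y * c)
    - h2 * r (y * c) * r x

theorem cxwe (x w y : A) : r c * r x * r w * r c * r (y * c) = 0 := by
  apply op_ext; intro z
  have h := S.rev w z x
  have h1 := congrArg (act w) (S.pxe z x y)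
  rw [act_mul, ← h, ← act_mul, h1]
  rfl

theorem ep (y z : A) : r c * r (y * c) * r (z * c) + r c * r (z * c) * r (y * c) = 0 := by
  have h := S.toIsEng.sym c (y * c) (z * c)
  have h1 := S.pc y
  have h2 := S.pc z
  linear_combination (norm := noncomm_ring) h - h1 * r (z * c) - h2 * r (y * c)
    - r (y * c) * h2 - r (z * c) * h1

theorem pp (u x : A) : r (u * c) * r (x * c) + r (x * c) * r (u * c) + r (x * c) * r u * r c
    + r u * r c * r (x * c) + r (u * c) * r x * r c + r x * r c * r (u * c) = 0 := by
  have h1 := S.dform u x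
  have h2 := S.dform x u
  have h3 : r ((u * c) * (x * c)) = - r ((x * c) * (u * c)) := by
    rw [S.toIsEng.anti, r_neg]
  linear_combination (norm := noncomm_ring) h1 + h2 - h3

theorem rfy (f y : A) (hf : f * c = 0) :
    r (f * (y * c)) = r (y * c) * r f - r c * r f * r y - r c * r y * r f := by
  have h1 : r (f * (y * c)) = - r ((y * c) * f) := by rw [S.toIsEng.anti, r_neg]
  have h2 := S.F y f
  have h3 : r ((y * f) * c) = - r ((f * y) * c) := by
    rw [S.toIsEng.anti y f, neg_mul, r_neg]
  have h4 := S.toIsEng.op2 f c y
  rw [hf, zero_mul, r_zero, zero_mul] at h4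
  have h5 : r (y * f) = - r (f * y) := by rw [S.toIsEng.anti, r_neg]
  have h6 := S.toIsEng.sym f y c
  rw [h3, h5] at h2
  linear_combination (norm := noncomm_ring) h1 - h2 - h4 + h6

/-- operator of `((z c)(y c)) v` -/
theorem rdv (z y v : A) : r (((z * c) * (y * c)) * v) =
    - r (y * c) * r ((z * c) * v) + r c * r ((z * c) * v) * r y + r c * r y * r ((z * c) * v)
    - r ((z * c) * v) * r (y * c) - r ((z * c) * (y * c)) * r v
    - r (z * c) * r v * r (y * c) - r (z * c) * r (y * c) * r v := by
  have hf : ((z * c) * v) * c = 0 := by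
    have := congrArg (act z) (S.cxc v)
    simpa only [act_mul, act_r, act_zero] using this
  have h1 := S.rfy ((z * c) * v) y hf
  have h2 := S.toIsEng.op2 (z * c) v (y * c)
  linear_combination (norm := noncomm_ring) h2 - h1

end IsSand

end Pool.Agent.H10.Eng
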