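import Mathlib
import Pool.Agent.H10.Eng.Sand1

/-! Sandwiches in anticommutative 3-Engel algebras: zero words and identities with three
factors `c` (MP_1664c7_al). -/

set_option autoImplicit false

namespace Pool.Agent.H10.Eng

open MulOpposite

variable {A : Type*} [NonUnitalNonAssocRing A]

namespace IsSand

variable {c : A} (S : IsSand c)
include S

theorem z1 : r c * r c = 0 := S.cc
theorem z1' (w : Op A) : r c * (r c * w) = 0 := by
  rw [← mul_assoc, S.z1, zero_mul]
theorem z2 (x : A) : r c * (r x * r c) = 0 := by rw [← mul_assoc, S.cxc]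
theorem z2' (x : A) (w : Op A) : r c * (r x * (r c * w)) = 0 := by
  rw [← mul_assoc, ← mul_assoc, S.cxc, zero_mul]
theorem z3 (x : A) : r (x * c) * r c = 0 := S.pc x
theorem z3' (x : A) (w : Op A) : r (x * c) * (r c * w) = 0 := by
  rw [← mul_assoc, S.pc, zero_mul]
theorem z4 (x y : A) : r c * (r (y * c) * (r x * r c)) = 0 := by
  simp only [← mul_assoc]; exact S.e1 x y
theorem z4' (x y : A) (w : Op A) : r c * (r (y * c) * (r x * (r c * w))) = 0 := by
  simp only [← mul_assoc]; rw [S.e1 x y, zero_mul]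
theorem z5 (x a b : A) : r c * (r (x * c) * (r a * (r b * r c))) = 0 := by
  simp only [← mul_assoc]; exact S.e2 x a b
theorem z5' (x a b : A) (w : Op A) : r c * (r (x * c) * (r a * (r b * (r c * w)))) = 0 := by
  simp only [← mul_assoc]; rw [S.e2 x a b, zero_mul]
theorem z6 (x a b : A) : r c * (r a * (r (x * c) * (r b * r c))) = 0 := by
  simp only [← mul_assoc]; exact S.g2 x a b
theorem z6' (x a b : A) (w : Op A) : r c * (r a * (r (x * c) * (r b * (r c * w)))) = 0 := by
  simp only [← mul_assoc]; rw [S.g2 x a b, zero_mul]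
theorem z7 (u x z : A) : r (u * c) * (r (x * c) * (r z * r c)) = 0 := by
  simp only [← mul_assoc]; exact S.ppc u x z
theorem z7' (u x z : A) (w : Op A) : r (u * c) * (r (x * c) * (r z * (r c * w))) = 0 := by
  simp only [← mul_assoc]; rw [S.ppc u x z, zero_mul]
theorem z8 (z x y : A) : r (z * c) * (r x * (r c * r (y * c))) = 0 := by
  simp only [← mul_assoc]; exact S.pxe z x y
theorem z8' (z x y : A) (w : Op A) : r (z * c) * (r x * (r c * (r (y * c) * w))) = 0 := by
  simp only [← mul_assoc]; rw [S.pxe z x y, zero_mul]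
theorem z9 (x w y : A) : r c * (r x * (r w * (r c * r (y * c)))) = 0 := by
  simp only [← mul_assoc]; exact S.cxwe x w y
theorem z9' (x v y : A) (w : Op A) : r c * (r x * (r v * (r c * (r (y * c) * w)))) = 0 := by
  simp only [← mul_assoc]; rw [S.cxwe x v y, zero_mul]
theorem zd1 (u x : A) : r ((u * c) * (x * c)) * r c = 0 := S.dc u x
theorem zd1' (u x : A) (w : Op A) : r ((u * c) * (x * c)) * (r c * w) = 0 := by
  rw [← mul_assoc, S.dc, zero_mul]
theorem zd2 (u x v : A) : r ((u * c) * (x * c)) * (r v * r c) = 0 := by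
  rw [← mul_assoc, S.dvc]
theorem zd2' (u x v : A) (w : Op A) : r ((u * c) * (x * c)) * (r v * (r c * w)) = 0 := by
  rw [← mul_assoc, ← mul_assoc, S.dvc, zero_mul]

/-- all the zero words -/
theorem Zw : (r c * r c = 0) ∧ (∀ w : Op A, r c * (r c * w) = 0)
    ∧ (∀ x : A, r c * (r x * r c) = 0) ∧ (∀ (x : A) (w : Op A), r c * (r x * (r c * w)) = 0)
    ∧ (∀ x : A, r (x * c) * r c = 0) ∧ (∀ (x : A) (w : Op A), r (x * c) * (r c * w) = 0)
    ∧ (∀ x y : A, r c * (r (y * c) * (r x * r c)) = 0)
    ∧ (∀ (x y : A) (w : Op A), r c * (r (y * c) * (r x * (r c * w))) = 0)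
    ∧ (∀ x a b : A, r c * (r (x * c) * (r a * (r b * r c))) = 0)
    ∧ (∀ (x a b : A) (w : Op A), r c * (r (x * c) * (r a * (r b * (r c * w)))) = 0)
    ∧ (∀ x a b : A, r c * (r a * (r (x * c) * (r b * r c))) = 0)
    ∧ (∀ (x a b : A) (w : Op A), r c * (r a * (r (x * c) * (r b * (r c * w)))) = 0)
    ∧ (∀ u x z : A, r (u * c) * (r (x * c) * (r z * r c)) = 0)
    ∧ (∀ (u x z : A) (w : Op A), r (u * c) * (r (x * c) * (r z * (r c * w))) = 0)
    ∧ (∀ z x y : A, r (z * c) * (r x * (r c * r (y * c))) = 0)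
    ∧ (∀ (z x y : A) (w : Op A), r (z * c) * (r x * (r c * (r (y * c) * w))) = 0)
    ∧ (∀ x w y : A, r c * (r x * (r w * (r c * r (y * c)))) = 0)
    ∧ (∀ (x v y : A) (w : Op A), r c * (r x * (r v * (r c * (r (y * c) * w)))) = 0)
    ∧ (∀ u x : A, r ((u * c) * (x * c)) * r c = 0)
    ∧ (∀ (u x : A) (w : Op A), r ((u * c) * (x * c)) * (r c * w) = 0)
    ∧ (∀ u x v : A, r ((u * c) * (x * c)) * (r v * r c) = 0)
    ∧ (∀ (u x v : A) (w : Op A), r ((u * c) * (x * c)) * (r v * (r c * w)) = 0) :=
  ⟨S.z1, S.z1', S.z2, S.z2', S.z3, S.z3', S.z4, S.z4', S.z5, S.z5', S.z6, S.z6', S.z7, S.z7',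
    S.z8, S.z8', S.z9, S.z9', S.zd1, S.zd1', S.zd2, S.zd2'⟩

/-- `C * R((z c)(y c) v) = C P_y P_z V` -/
theorem crd (z y v : A) : r c * r (((z * c) * (y * c)) * v) =
    r c * r (y * c) * r (z * c) * r v := by
  have a1 := S.ep y (z * v)
  rw [S.rdv z y v, S.F z v, S.dform z y]
  linear_combination (norm := ((try simp only [S.Zw, two_mul, mul_add, add_mul, sub_mul, mul_sub, neg_mul, mul_neg, mul_assoc,
      mul_zero, zero_mul, add_zero, zero_add, sub_zero, zero_sub, neg_zero]); (try abel))) a1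

/-- `(d w)(z c) = (d (z c)) w` in operator form -/
theorem theta (y v x : A) : r c * r (y * c) * r v * r (x * c)
    = r c * r (y * c) * r (x * c) * r v := by
  apply op_ext; intro z
  have h := congrArg (act x) (S.crd z y v)
  have h1 := congrArg (act x) (S.ep y z)
  simp only [act_mul, act_r, act_add, act_zero] at h h1 ⊢
  -- h : (x c)(d v) = (((x c)(y c))(z c)) v,  d = (z c)(y c)
  have k1 : x * c * (z * c * (y * c) * v) = - (z * c * (y * c) * v * (x * c)) := S.toIsEng.anti _ _
  rw [k1] at h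
  have k2 : x * c * (z * c) * (y * c) = - (z * c * (x * c) * (y * c)) := by
    rw [S.toIsEng.anti (x * c) (z * c), neg_mul]
  have h3 := congrArg (act z) (S.ep x y)
  simp only [act_mul, act_r, act_add, act_zero] at h3
  -- (xc yc) zc = -(xc zc) yc = (zc xc) yc = -(zc yc) xc
  have k3 : x * c * (y * c) * (z * c) = - (z * c * (y * c) * (x * c)) := by
    rw [eq_neg_of_add_eq_zero_left h1, k2, neg_neg, eq_neg_of_add_eq_zero_left h3]
  rw [k3, neg_mul] at h
  exact neg_injective h

/-- `R_T = D P_z` for `T = ((x c)(y c))(z c)` -/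
theorem rT (x y z : A) : r (((x * c) * (y * c)) * (z * c)) = r ((x * c) * (y * c)) * r (z * c) := by
  apply op_ext; intro w
  have h := congrArg (act x) (S.theta y w z)
  simp only [act_mul, act_r] at h ⊢
  rw [S.toIsEng.anti w, S.toIsEng.anti w, neg_mul, h]

/-- for `P_z Q V C` -/
theorem R3 (u z q v : A) : act u (r (z * c) * r q * r v * r c) =
    act z (r c * r q * r u * r v * r c) + act z (r q * r c * r u * r v * r c)
      - act u (r z * r c * r q * r v * r c) := by
  have h := congrArg (fun w => act u (w * r v * r c)) (S.F z q)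
  have h1 := S.rev u (z * q) v
  have h2 := congrArg (act (z * q)) (S.csym u v)
  have h3 : act u (r ((z * c) * q) * r v * r c) = - act z (r c * r q * r u * r v * r c) := by
    simp only [act_mul, act_r]
    rw [S.toIsEng.anti u, neg_mul, neg_mul]
  beta_reduce at h
  rw [h3] at h
  have h4 : (- r ((z * q) * c) - r (z * c) * r q - r (z * q) * r c - r z * r c * r q
      - r z * r q * r c) * r v * r c =
      - (r ((z * q) * c) * r v * r c) - r (z * c) * r q * r v * r c
        - r z * r c * r q * r v * r c := by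
    ((try simp only [S.Zw, two_mul, mul_add, add_mul, sub_mul, mul_sub, neg_mul, mul_neg, mul_assoc,
      mul_zero, zero_mul, add_zero, zero_add, sub_zero, zero_sub, neg_zero]); (try abel))
  rw [h4, act_sub, act_sub, act_neg, h1] at h
  have h5 : act z (r q * r c * r u * r v * r c) = act (z * q) (r c * r u * r v * r c) := by
    simp only [act_mul, act_r]
  rw [act_add, act_zero] at h2
  rw [h5]
  rw [eq_neg_of_add_eq_zero_right h2] at h
  rw [neg_neg] at h
  have := neg_eq_iff_eq_neg.mp h
  rw [this]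
  abel

end IsSand

end Pool.Agent.H10.Eng
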