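import Mathlib
import Pool.Agent.H10.Eng.Sand2

/-! Sandwiches in anticommutative 3-Engel algebras: the words `C A B C D E C` vanish
(MP_1664c7_al). -/

set_option autoImplicit false

namespace Pool.Agent.H10.Eng

open MulOpposite

variable {A : Type*} [NonUnitalNonAssocRing A]

/-- `z C A B C D E C` -/
def G (c z a b d e : A) : A := act z (r c * r a * r b * r c * r d * r e * r c)
/-- `y C P_z Q V W C` -/
def O (c y z q v s : A) : A := act y (r c * r (z * c) * r q * r v * r s * r c)
/-- `z C A B P_y D C` -/
def L (c z a b y d : A) : A := act z (r c * r a * r b * r (y * c) * r d * r c)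
/-- `z C A P_y B D C` -/
def M (c z a y b d : A) : A := act z (r c * r a * r (y * c) * r b * r d * r c)

namespace IsSand

variable {c : A} (S : IsSand c)
include S

theorem G12 (z a b d e : A) : G c z a b d e = - G c z b a d e := by
  unfold G
  rw [← act_neg]; congr 1
  have h := S.csym a b
  linear_combination (norm := ((try simp only [S.Zw, two_mul, mul_add, add_mul, sub_mul, mul_sub, neg_mul, mul_neg, mul_assoc,
      mul_zero, zero_mul, add_zero, zero_add, sub_zero, zero_sub, neg_zero]); (try abel))) h * r d * r e * r c

theorem G34 (z a b d e : A) : G c z a b d e = - G c z a b e d := by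
  unfold G
  rw [← act_neg]; congr 1
  have h := S.csym d e
  linear_combination (norm := ((try simp only [S.Zw, two_mul, mul_add, add_mul, sub_mul, mul_sub, neg_mul, mul_neg, mul_assoc,
      mul_zero, zero_mul, add_zero, zero_add, sub_zero, zero_sub, neg_zero]); (try abel))) r c * r a * r b * h

theorem G23 (z a b d e : A) : G c z a b d e = - G c z a d b e := by
  unfold G
  rw [← act_neg]; congr 1
  have h := S.toIsEng.sym (b) c d
  linear_combination (norm := ((try simp only [S.Zw, two_mul, mul_add, add_mul, sub_mul, mul_sub, neg_mul, mul_neg, mul_assoc,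
      mul_zero, zero_mul, add_zero, zero_add, sub_zero, zero_sub, neg_zero]); (try abel))) r c * r a * h * r e * r c

theorem O45 (y z q v s : A) : O c y z q v s = - O c y z q s v := by
  unfold O
  rw [← act_neg]; congr 1
  have h := S.toIsEng.sym c v s
  linear_combination (norm := ((try simp only [S.Zw, two_mul, mul_add, add_mul, sub_mul, mul_sub, neg_mul, mul_neg, mul_assoc,
      mul_zero, zero_mul, add_zero, zero_add, sub_zero, zero_sub, neg_zero]); (try abel))) r c * r (z * c) * r q * h

theorem O12 (y z q v s : A) : O c y z q v s = - O c z y q v s := by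
  unfold O
  have e : ∀ y z : A, act y (r c * r (z * c) * r q * r v * r s * r c)
      = act (act y (r c * r (z * c))) (r q * r v * r s * r c) := by
    intro y z; simp only [act_mul]
  rw [e, e, S.kanti y z, neg_act]

theorem pG (w u x v s : A) : act w (r (u * c) * r x * r c * r v * r s * r c) = G c u x w v s := by
  unfold G
  have e : act w (r (u * c) * r x * r c * r v * r s * r c)
      = act (act w (r (u * c) * r x * r c)) (r v * r s * r c) := by simp only [act_mul]
  rw [e, S.rev w u x]
  simp only [act_mul]

/-- (22) -/
theorem MO (y v z q s : A) : M c y v z q s = - O c y z v q s - G c z v y q s := by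
  unfold M O
  rw [← S.pG, ← act_neg, ← act_sub]; congr 1
  have h := S.t1 v z
  linear_combination (norm := ((try simp only [S.Zw, two_mul, mul_add, add_mul, sub_mul, mul_sub, neg_mul, mul_neg, mul_assoc,
      mul_zero, zero_mul, add_zero, zero_add, sub_zero, zero_sub, neg_zero]); (try abel))) h * r q * r s * r c

theorem O2 (u x w v s : A) : O c u x w v s - O c u x v w s
    = (G c x u w v s + G c x u w v s) - (G c u x w v s + G c u x w v s) := by
  -- first evaluation
  have k1 : act w (r (u * c) * r (x * c) * r v * r s * r c) = O c u x w v s - G c x u w v s := by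
    have h1 : act w (r ((u * c) * (x * c)) * r v * r s * r c) = - O c u x w v s := by
      unfold O
      simp only [act_mul, act_r]
      rw [S.toIsEng.anti w, neg_mul, neg_mul, neg_mul]
    rw [S.dform] at h1
    rw [← S.pG w x u v s]
    have h2 : (- r (u * c) * r (x * c) - r (x * c) * r u * r c - r u * r c * r (x * c)) * r v
        * r s * r c = - (r (u * c) * r (x * c) * r v * r s * r c)
        - r (x * c) * r u * r c * r v * r s * r c := by ((try simp only [S.Zw, two_mul, mul_add, add_mul, sub_mul, mul_sub, neg_mul, mul_neg, mul_assoc,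
      mul_zero, zero_mul, add_zero, zero_add, sub_zero, zero_sub, neg_zero]); (try abel))
    rw [h2, act_sub, act_neg] at h1
    rw [← neg_neg (O c u x w v s), ← h1]
    abel
  -- second evaluation
  have k2 : act w (r (u * c) * r (x * c) * r v * r s * r c)
      = - O c x u v w s - G c u v x w s + G c x v u w s - G c u x w v s := by
    have h1 : act w (r (u * c) * r (x * c) * r v * r s * r c)
        = act (act w (r (u * c))) (r (x * c) * r v * r s * r c) := by simp only [act_mul]
    rw [h1, S.R3]
    have h2 : r (act w (r (u * c))) = r ((u * w) * c) + r (u * c) * r w + r (u * w) * r c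
        + r u * r c * r w + r u * r w * r c := by
      rw [act_r, S.toIsEng.anti w, r_neg, S.F]; abel
    have h3 : act x (r c * r v * r (act w (r (u * c))) * r s * r c)
        = M c x v u w s + G c x v u w s := by
      unfold M G
      rw [h2, ← act_add]; congr 1; ((try simp only [S.Zw, two_mul, mul_add, add_mul, sub_mul, mul_sub, neg_mul, mul_neg, mul_assoc,
      mul_zero, zero_mul, add_zero, zero_add, sub_zero, zero_sub, neg_zero]); (try abel))
    have h4 : act x (r v * r c * r (act w (r (u * c))) * r s * r c) = 0 := by
      rw [h2]
      rw [← act_zero x]; congr 1; ((try simp only [S.Zw, two_mul, mul_add, add_mul, sub_mul, mul_sub, neg_mul, mul_neg, mul_assoc,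
      mul_zero, zero_mul, add_zero, zero_add, sub_zero, zero_sub, neg_zero]); (try abel))
    have h5 : act (act w (r (u * c))) (r x * r c * r v * r s * r c) = G c u x w v s := by
      rw [← S.pG w u x v s]; simp only [act_mul]
    rw [h3, h4, h5, S.MO]
    abel
  rw [k1] at k2
  have e1 : O c x u v w s = - O c u x v w s := S.O12 _ _ _ _ _
  have e2 : G c u v x w s = G c u x w v s := by
    rw [S.G12 u v x w s, S.G23 u x v w s, neg_neg]
  have e3 : G c x v u w s = G c x u w v s := by
    rw [S.G12 x v u w s, S.G23 x u v w s, neg_neg]
  rw [e1, e2, e3] at k2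
  have k3 : O c u x w v s = G c x u w v s + (- - O c u x v w s - G c u x w v s + G c x u w v s
      - G c u x w v s) := by rw [← k2]; abel
  rw [k3]; abel

/-- symmetric in the first two and antisymmetric in the last two arguments implies zero -/
theorem s3 (f : A → A → A → A) (h1 : ∀ x y z, f x y z = f y x z)
    (h2 : ∀ x y z, f x y z = - f x z y) (x y z : A) : f x y z = 0 := by
  apply S.toIsEng.two'
  have : f x y z = - f x y z := by
    calc f x y z = f y x z := h1 _ _ _
      _ = - f y z x := h2 _ _ _
      _ = - f z y x := by rw [h1 y z x]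
      _ = f z x y := by rw [h2 z y x, neg_neg]
      _ = f x z y := h1 _ _ _
      _ = - f x y z := h2 _ _ _
  nth_rewrite 1 [this]
  exact neg_add_cancel _

theorem OG (y z q v s : A) : O c y z q v s = G c z y q v s - G c y z q v s := by
  have h := S.s3 (fun q v s => O c y z q v s - (G c z y q v s - G c y z q v s))
    (by
      intro q v s
      have h1 := S.O2 y z q v s
      have h2 := S.G23 z y q v s
      have h3 := S.G23 y z q v s
      have h4 : O c y z q v s = O c y z v q s + ((G c z y q v s + G c z y q v s)
        - (G c y z q v s + G c y z q v s)) := by rw [← h1]; abel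
      rw [h4]
      have h5 : G c z y v q s = - G c z y q v s := by rw [h2, neg_neg]
      have h6 : G c y z v q s = - G c y z q v s := by rw [h3, neg_neg]
      rw [h5, h6]
      abel)
    (by
      intro q v s
      rw [S.O45 y z q v s, S.G34 z y q v s, S.G34 y z q v s]
      abel) q v s
  exact sub_eq_zero.mp h

/-- (24) -/
theorem LG (a b d z e : A) : L c a b d z e = - G c a b d z e := by
  have k1 : act a (r c * r b * r d * r c * r ((z * c) * e)) = - G c a b d z e := by
    unfold G
    rw [S.F, ← act_neg]; congr 1; ((try simp only [S.Zw, two_mul, mul_add, add_mul, sub_mul, mul_sub, neg_mul, mul_neg, mul_assoc,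
      mul_zero, zero_mul, add_zero, zero_add, sub_zero, zero_sub, neg_zero]); (try abel))
  have hf : ((a * c) * b) * c = 0 := by
    have := congrArg (act a) (S.cxc b)
    simpa only [act_mul, act_r, act_zero] using this
  have k2 : r ((((a * c) * b) * d) * c) = - r (((a * c) * b) * d) * r c
      - r ((a * c) * b) * r c * r d - r ((a * c) * b) * r d * r c := by
    have h := S.toIsEng.op2 ((a * c) * b) c d
    rw [hf, zero_mul, r_zero, zero_mul] at h
    linear_combination (norm := ((try simp only [S.Zw, two_mul, mul_add, add_mul, sub_mul, mul_sub, neg_mul, mul_neg, mul_assoc,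
      mul_zero, zero_mul, add_zero, zero_add, sub_zero, zero_sub, neg_zero]); (try abel))) h
  have k3 : act a (r c * r b * r d * r c * r ((z * c) * e))
      = - act z (r c * r e * r ((((a * c) * b) * d) * c)) := by
    simp only [act_mul, act_r]
    exact S.toIsEng.anti _ _
  have k4 : act z (r c * r e * (r (((a * c) * b) * d) * r c)) = L c a b d z e := by
    have h1 : act z (r c * r e * (r (((a * c) * b) * d) * r c))
        = - act (((a * c) * b) * d) (r ((z * c) * e) * r c) := by
      simp only [act_mul, act_r]
      rw [S.toIsEng.anti ((z * c) * e), neg_mul]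
    rw [h1, S.FC]
    unfold L
    rw [← act_neg]
    have h2 : - (- r (z * c) * r e * r c) = r (z * c) * r e * r c := by ((try simp only [S.Zw, two_mul, mul_add, add_mul, sub_mul, mul_sub, neg_mul, mul_neg, mul_assoc,
      mul_zero, zero_mul, add_zero, zero_add, sub_zero, zero_sub, neg_zero]); (try abel))
    rw [h2]
    simp only [act_mul, act_r]
  have k5 : act z (r c * r e * (r ((a * c) * b) * r c * r d)) = 0 := by
    rw [S.FC, ← act_zero z]; congr 1; ((try simp only [S.Zw, two_mul, mul_add, add_mul, sub_mul, mul_sub, neg_mul, mul_neg, mul_assoc,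
      mul_zero, zero_mul, add_zero, zero_add, sub_zero, zero_sub, neg_zero]); (try abel))
  have k6 : act z (r c * r e * (r ((a * c) * b) * r d * r c))
      = - M c z e a b d - G c z e a b d := by
    unfold M G
    rw [S.F, ← act_neg, ← act_sub]; congr 1; ((try simp only [S.Zw, two_mul, mul_add, add_mul, sub_mul, mul_sub, neg_mul, mul_neg, mul_assoc,
      mul_zero, zero_mul, add_zero, zero_add, sub_zero, zero_sub, neg_zero]); (try abel))
  have k7 : r c * r e * r ((((a * c) * b) * d) * c) = - (r c * r e * (r (((a * c) * b) * d) * r c))
      - r c * r e * (r ((a * c) * b) * r c * r d) - r c * r e * (r ((a * c) * b) * r d * r c) := by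
    rw [k2]; ((try simp only [S.Zw, two_mul, mul_add, add_mul, sub_mul, mul_sub, neg_mul, mul_neg, mul_assoc,
      mul_zero, zero_mul, add_zero, zero_add, sub_zero, zero_sub, neg_zero]); (try abel))
  rw [k7, act_sub, act_sub, act_neg, k4, k5, k6, k1, S.MO, S.OG z a e b d] at k3
  have e1 : G c a e z b d = - G c a z e b d := S.G12 _ _ _ _ _
  have e2 : G c z e a b d = - G c z a e b d := S.G12 _ _ _ _ _
  rw [e1, e2] at k3
  have k8 : L c a b d z e = - G c a b d z e - (G c a z e b d - G c z a e b d)
      - (- G c a z e b d) + (- G c z a e b d) := by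
    rw [k3]; abel
  rw [k8]; abel

/-- (9') -/
theorem T9 (x y a e b : A) : act x (r c * r (y * c) * r (a * c) * (r e * r b - r b * r e))
    = - O c x y e a b - G c y e x a b - O c a y b x e - G c y b a x e := by
  have hf : ((a * c) * b) * c = 0 := by
    have := congrArg (act a) (S.cxc b)
    simpa only [act_mul, act_r, act_zero] using this
  have h1 := S.rfy ((a * c) * b) y hf
  have h2 := S.toIsEng.sym e c (((a * c) * b) * (y * c))
  have h3 := S.t1 e y
  have h4 := S.theta y e (a * b)
  have h5 := S.theta y e a
  -- operator identity
  have h6 : r c * r (y * c) * r (a * c) * (r e * r b - r b * r e)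
      = r c * r e * r (y * c) * r a * r b * r c
        - r (((a * c) * b) * (y * c)) * r e * r c := by
    have g1 : r c * r (((a * c) * b) * (y * c)) = - r c * r (y * c) * r ((a * b) * c)
        - r c * r (y * c) * r (a * c) * r b := by
      rw [h1, S.F a b]; ((try simp only [S.Zw, two_mul, mul_add, add_mul, sub_mul, mul_sub, neg_mul, mul_neg, mul_assoc,
      mul_zero, zero_mul, add_zero, zero_add, sub_zero, zero_sub, neg_zero]); (try abel))
    have g2 : r (((a * c) * b) * (y * c)) * r c = 0 := by
      rw [h1, S.F a b]; ((try simp only [S.Zw, two_mul, mul_add, add_mul, sub_mul, mul_sub, neg_mul, mul_neg, mul_assoc,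
      mul_zero, zero_mul, add_zero, zero_add, sub_zero, zero_sub, neg_zero]); (try abel))
    have g3 : r c * r e * r (((a * c) * b) * (y * c)) = - r c * r e * r (y * c) * r ((a * b) * c)
        - r c * r e * r (y * c) * r (a * c) * r b - r c * r e * r (y * c) * r a * r b * r c := by
      rw [h1, S.F a b]; ((try simp only [S.Zw, two_mul, mul_add, add_mul, sub_mul, mul_sub, neg_mul, mul_neg, mul_assoc,
      mul_zero, zero_mul, add_zero, zero_add, sub_zero, zero_sub, neg_zero]); (try abel))
    linear_combination (norm := ((try simp only [S.Zw, two_mul, mul_add, add_mul, sub_mul, mul_sub, neg_mul, mul_neg, mul_assoc,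
      mul_zero, zero_mul, add_zero, zero_add, sub_zero, zero_sub, neg_zero]); (try abel))) h2 - r e * g1 - g1 * r e - r e * g2 - g2 * r e - g3
      + h3 * r ((a * b) * c) + h3 * r (a * c) * r b - h4 - h5 * r b
  rw [h6, act_sub]
  have h7 : act x (r c * r e * r (y * c) * r a * r b * r c) = - O c x y e a b - G c y e x a b := by
    have := S.MO x e y a b
    unfold M at this
    exact this
  have h8 : act x (r (((a * c) * b) * (y * c)) * r e * r c)
      = O c a y b x e + G c y b a x e := by
    have h9 : act x (r (((a * c) * b) * (y * c)) * r e * r c)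
        = - act a (r c * r b * r (y * c) * r x * r e * r c) := by
      simp only [act_mul, act_r]
      rw [S.toIsEng.anti x, neg_mul, neg_mul]
    rw [h9]
    have := S.MO a b y x e
    unfold M at this
    rw [this]; abel
  rw [h7, h8]
  abel

/-- (14) -/
theorem T14 (a b x v e : A) : act a (r c * r (b * c) * r (x * c) * (r v * r e - r e * r v))
    = - O c a b v x e - O c x b e a v - G c b e x a v - L c x e a b v := by
  -- (A)
  have kA : act x (r c * r e * r (((a * c) * (b * c)) * v))
      = act a (r c * r (b * c) * r ((x * e) * c) * r v) + act a (r c * r (b * c) * r (x * c) * r v * r e)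
        + O c a b v x e := by
    have h1 : act x (r c * r e * r (((a * c) * (b * c)) * v))
        = - act a (r c * r (b * c) * r v * r ((x * c) * e)) := by
      simp only [act_mul, act_r]
      exact S.toIsEng.anti _ _
    have h2 := S.theta b v (x * e)
    have h3 := S.theta b v x
    rw [h1]
    unfold O
    rw [← act_add, ← act_add, ← act_neg]
    congr 1
    rw [S.F x e]
    linear_combination (norm := ((try simp only [S.Zw, two_mul, mul_add, add_mul, sub_mul, mul_sub, neg_mul, mul_neg, mul_assoc,
      mul_zero, zero_mul, add_zero, zero_add, sub_zero, zero_sub, neg_zero]); (try abel))) h2 + h3 * r e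
  -- (B)
  have kB : r c * r e * r (((a * c) * (b * c)) * v)
      = - r c * r (b * c) * r (a * c) * r e * r v - r e * r c * r (b * c) * r (a * c) * r v
        + r c * r e * r (b * c) * r a * r v * r c - r c * r e * r a * r (b * c) * r v * r c := by
    rw [S.rdv a b v, S.F a v, S.dform a b]
    have h1 := S.pp b (a * v)
    have h2 := S.t1 v b
    have h3 := S.t1 e b
    have h4 := S.theta b e a
    linear_combination (norm := ((try simp only [S.Zw, two_mul, mul_add, add_mul, sub_mul, mul_sub, neg_mul, mul_neg, mul_assoc,
      mul_zero, zero_mul, add_zero, zero_add, sub_zero, zero_sub, neg_zero]); (try abel))) r c * r e * h1 + r c * r e * r a * h2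
      + h3 * r (a * c) * r v - h4 * r v
  have h1 := congrArg (act x) kB
  rw [kA] at h1
  simp only [act_add, act_sub, act_neg, neg_mul] at h1
  have t1 : act x (r c * r (b * c) * r (a * c) * r e * r v)
      = - act a (r c * r (b * c) * r (x * c) * r e * r v) := by
    have e1 := congrArg (act x) (S.ep b a)
    have e2 := congrArg (act a) (S.ep b x)
    simp only [act_mul, act_r, act_add, act_zero] at e1 e2 ⊢
    rw [eq_neg_of_add_eq_zero_left e1, eq_neg_of_add_eq_zero_left e2, neg_mul, neg_mul, neg_mul,
      neg_mul, S.toIsEng.anti (x * c) (a * c)]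
    simp only [neg_mul, neg_neg]
  have t2 : act x (r e * r c * r (b * c) * r (a * c) * r v)
      = - act a (r c * r (b * c) * r ((x * e) * c) * r v) := by
    have e1 := congrArg (act (x * e)) (S.ep b a)
    have e2 := congrArg (act a) (S.ep b (x * e))
    simp only [act_mul, act_r, act_add, act_zero] at e1 e2 ⊢
    rw [eq_neg_of_add_eq_zero_left e1, eq_neg_of_add_eq_zero_left e2, neg_mul, neg_mul,
      S.toIsEng.anti ((x * e) * c) (a * c)]
    simp only [neg_mul, neg_neg]
  have t3 : act x (r c * r e * r (b * c) * r a * r v * r c) = - O c x b e a v - G c b e x a v := by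
    have := S.MO x e b a v
    unfold M at this
    exact this
  have t4 : act x (r c * r e * r a * r (b * c) * r v * r c) = L c x e a b v := rfl
  rw [t1, t2, t3, t4] at h1
  rw [mul_sub, act_sub]
  have t5 : act a (r c * r (b * c) * r (x * c) * (r v * r e))
      = act a (r c * r (b * c) * r (x * c) * r v * r e) := by rw [mul_assoc _ (r v)]
  have t6 : act a (r c * r (b * c) * r (x * c) * (r e * r v))
      = act a (r c * r (b * c) * r (x * c) * r e * r v) := by rw [mul_assoc _ (r e)]
  rw [t5, t6]
  have h2 := sub_eq_zero.mpr h1
  rw [← sub_eq_zero]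
  rw [← h2]
  abel

theorem G_eq_zero (z a b d e : A) : G c z a b d e = 0 := by
  -- G(x;b,e,a,v) is symmetric in x, b
  have key : ∀ a v x b e : A, G c x b e a v = G c b x e a v := by
    intro a v x b e
    have h1 := S.T9 a b x v e
    have h2 := S.T14 a b x v e
    rw [h1] at h2
    have h3 := S.LG x e a b v
    have h4 : L c x e a b v = G c b v a x e := by
      have := sub_eq_zero.mpr h2
      rw [← sub_eq_zero, ← this]
      abel
    rw [h3] at h4
    -- - G x e a b v = G b v a x e
    have p1 : G c x e a b v = G c x b e a v := by
      rw [S.G23 x e a b v, S.G12 x e b a v, neg_neg]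
    have p2 : G c b v a x e = - G c b x e a v := by
      -- v a x e -> v x a e -> x v a e -> x v e a -> x e v a -> x e a v
      rw [S.G23 b v a x e, S.G12 b v x a e, S.G34 b x v a e, S.G23 b x v e a, S.G34 b x e v a]
      simp only [neg_neg]
    rw [p1, p2] at h4
    exact neg_injective h4
  exact S.s3 (fun x b' e' => G c x b' e' d e) (fun x b' e' => key _ _ _ _ _)
    (fun x b' e' => S.G12 x b' e' d e) z a b

theorem O_eq_zero (y z q v s : A) : O c y z q v s = 0 := by
  rw [S.OG, S.G_eq_zero, S.G_eq_zero, sub_zero]

end IsSand

end Pool.Agent.H10.Eng
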