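import Mathlib
import Pool.Agent.H10.Eng.Sand3
import Pool.Agent.H66.Eng.Defs

/-! Sandwiches in anticommutative 3-Engel algebras: `(x c)(y c)` is a thick sandwich
(MP_1664c7_al). -/

set_option autoImplicit false

namespace Pool.Agent.H10.Eng

open MulOpposite

variable {A : Type*} [NonUnitalNonAssocRing A]

namespace IsSand

variable {c : A} (S : IsSand c)
include S

theorem Dxx (x y : A) : r ((x * c) * (y * c)) * r (y * c) = 0 := by
  rw [← S.rT]
  have h := S.toIsEng.op_two (S.ep y y)
  have h1 := congrArg (act x) h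
  simp only [act_mul, act_r, act_zero] at h1
  rw [h1, r_zero]

theorem Dxy (x y : A) : r ((x * c) * (y * c)) * r (x * c) = 0 := by
  have h := S.Dxx y x
  rw [S.toIsEng.anti (x * c) (y * c), r_neg, neg_mul, h, neg_zero]

theorem DD (x y : A) : r ((x * c) * (y * c)) * r ((x * c) * (y * c)) = 0 := by
  have h1 := S.Dxx x y
  have h2 := S.Dxy x y
  have h3 := S.dvc x y x
  have h4 := S.dform x y
  have h5 : r ((x * c) * (y * c)) * r ((x * c) * (y * c))
      = r ((x * c) * (y * c)) * (- r (x * c) * r (y * c)
    - r (y * c) * r x * r c - r x * r c * r (y * c)) := by rw [← h4]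
  rw [h5]
  linear_combination (norm := noncomm_ring) - h2 * r (y * c) - h1 * r x * r c - h3 * r (y * c)

theorem DXVC (x y a v : A) : r ((x * c) * (y * c)) * r a * r v * r c = 0 := by
  apply op_ext; intro w
  have h := S.O_eq_zero x y w a v
  unfold O at h
  simp only [act_mul, act_r, act_zero] at h ⊢
  rw [S.toIsEng.anti w, neg_mul, neg_mul, neg_mul, h, neg_zero]

theorem DPYC (x y z a : A) : r ((x * c) * (y * c)) * r (z * c) * r a * r c = 0 := by
  rw [← S.rT]
  apply op_ext; intro w
  have h1 : act w (r (((x * c) * (y * c)) * (z * c)) * r a * r c)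
      = - act ((x * c) * (y * c)) (r (z * c) * r w * r a * r c) := by
    simp only [act_mul, act_r]
    rw [S.toIsEng.anti w, neg_mul, neg_mul]
  rw [h1, S.R3]
  have h2 : act z (r c * r w * r ((x * c) * (y * c)) * r a * r c) = 0 := by
    rw [← act_zero z]; congr 1; ((try simp only [S.Zw, two_mul, mul_add, add_mul, sub_mul, mul_sub, neg_mul, mul_neg, mul_assoc,
      mul_zero, zero_mul, add_zero, zero_add, sub_zero, zero_sub, neg_zero]); (try abel))
  have h3 : act z (r w * r c * r ((x * c) * (y * c)) * r a * r c) = 0 := by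
    rw [← act_zero z]; congr 1; ((try simp only [S.Zw, two_mul, mul_add, add_mul, sub_mul, mul_sub, neg_mul, mul_neg, mul_assoc,
      mul_zero, zero_mul, add_zero, zero_add, sub_zero, zero_sub, neg_zero]); (try abel))
  have h4 : act ((x * c) * (y * c)) (r z * r c * r w * r a * r c) = 0 := by
    have h5 : act ((x * c) * (y * c)) (r z * r c * r w * r a * r c)
        = act x (r c * r (y * c) * r z * r c * r w * r a * r c) := by
      simp only [act_mul, act_r]
    rw [h5, ← act_zero x]; congr 1; ((try simp only [S.Zw, two_mul, mul_add, add_mul, sub_mul, mul_sub, neg_mul, mul_neg, mul_assoc,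
      mul_zero, zero_mul, add_zero, zero_add, sub_zero, zero_sub, neg_zero]); (try abel))
  rw [h2, h3, h4, act_zero]
  simp

theorem Ddv (x y v : A) : r ((x * c) * (y * c)) * r (((x * c) * (y * c)) * v) = 0 := by
  have h := S.rdv x y v
  have hF := S.F x v
  have a1 := S.Dxx x y
  have a2 := S.Dxy x y
  have a3 := S.DD x y
  have a4 := S.DXVC x y x v
  have a5 := S.DPYC x y (x * v) y
  have a6 := S.pp (x * v) y
  have b1 := S.dc x y
  have b2 := S.dvc x y (x * v)
  have b3 := S.dvc x y x
  have b4 := S.dvc x y y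
  have c1 : r ((x * c) * (y * c)) * r ((x * c) * v) = - r ((x * c) * (y * c)) * r ((x * v) * c) := by
    rw [hF]
    linear_combination (norm := noncomm_ring) - a2 * r v - b2 - b3 * r v - a4
  have c2 : r ((x * c) * (y * c)) * r (((x * c) * (y * c)) * v)
      = r ((x * c) * (y * c)) * (- r (y * c) * r ((x * c) * v) + r c * r ((x * c) * v) * r y
        + r c * r y * r ((x * c) * v)
    - r ((x * c) * v) * r (y * c) - r ((x * c) * (y * c)) * r v
    - r (x * c) * r v * r (y * c) - r (x * c) * r (y * c) * r v) := by rw [← h]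
  rw [c2]
  linear_combination (norm := noncomm_ring) - a1 * r ((x * c) * v) + b1 * r ((x * c) * v) * r y
    + b1 * r y * r ((x * c) * v) - c1 * r (y * c) - a3 * r v - a2 * r v * r (y * c)
    - a2 * r (y * c) * r v + r ((x * c) * (y * c)) * a6 - a1 * r ((x * v) * c)
    - a1 * r (x * v) * r c - b2 * r (y * c) - a5 - b4 * r ((x * v) * c)

end IsSand

/-- Target (I): for a sandwich `c` all elements `(x c)(y c)` are thick sandwiches. -/
theorem target_I' (h : IsEng A) (c : A) (hc : ∀ u : A, (u * c) * c = 0) (x y : A) :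
    (∀ u : A, (u * ((x * c) * (y * c))) * ((x * c) * (y * c)) = 0) ∧
    (∀ u v : A, (u * ((x * c) * (y * c))) * (v * ((x * c) * (y * c))) = 0) := by
  have S : IsSand c := ⟨h, hc⟩
  refine ⟨fun u => ?_, fun u v => ?_⟩
  · have := congrArg (act u) (S.DD x y)
    simpa only [act_mul, act_r, act_zero] using this
  · have := congrArg (act u) (S.Ddv x y v)
    simp only [act_mul, act_r, act_zero] at this
    rw [h.anti v, mul_neg, this, neg_zero]

theorem target_I {A : Type*} [NonUnitalNonAssocRing A] (h : Pool.Agent.H66.Eng.E3 A) :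
    Pool.Agent.H66.Eng.TargetI A := by
  intro c hc x y
  exact target_I' ⟨h.sq, h.eng, h.h2⟩ c hc x y

end Pool.Agent.H10.Eng
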